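import Pool.Agent.Run7.h202.RP.Stm

/-!
# Piece JOINT of project RP (helper202)
-/

set_option autoImplicit false

namespace Run7.h705.RP

open Finset Filter Pool.Agent.H234RC Pool.Agent.TH953.RC Pool.Agent.Y395.RS Pool.Agent.Y395.RW
open Pool.Agent.Run7.h202.RP

theorem joint_aux {α : Type} [DecidableEq α] (E A I : Finset α) (p k : ℝ) (hp0 : 0 ≤ p)
    (hp1 : p ≤ 1) (hA : A ⊆ E) (hI : I ⊆ E) (hd : Disjoint A I) :
    pr (fun _ => p) E (fun F => A ⊆ F ∧ ((F ∩ I).card : ℝ) ≤ k) ≤
      p ^ A.card * Real.exp (k - 3 / 5 * p * I.card) := by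
  classical
  set x : α → ℝ := fun e => if e ∈ I then Real.exp (-1) else 1 with hx
  set y : α → ℝ := fun e => if e ∈ A then 0 else 1 with hy
  have hx0 : ∀ e, 0 ≤ x e := by
    intro e
    simp only [hx]
    split_ifs
    · exact (Real.exp_pos _).le
    · exact zero_le_one
  have hy0 : ∀ e, 0 ≤ y e := by
    intro e
    simp only [hy]
    split_ifs
    · exact le_rfl
    · exact zero_le_one
  set t : Finset α → ℝ := fun F => (∏ e ∈ F, p * x e) * ∏ e ∈ E \ F, (1 - p) * y e with ht
  have ht0 : ∀ F, 0 ≤ t F := fun F => mul_nonneg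
    (prod_nonneg fun e _ => mul_nonneg hp0 (hx0 e))
    (prod_nonneg fun e _ => mul_nonneg (by linarith) (hy0 e))
  have ht1 : ∀ F, A ⊆ F → t F = wt (fun _ => p) E F * Real.exp (-((F ∩ I).card : ℝ)) := by
    intro F hF
    have e1 : ∏ e ∈ F, p * x e = (∏ _e ∈ F, p) * Real.exp (-((F ∩ I).card : ℝ)) := by
      rw [prod_mul_distrib]
      congr 1
      simp only [hx]
      rw [prod_ite_mem, prod_const, ← Real.exp_nat_mul]
      congr 1
      ring
    have e2 : ∏ e ∈ E \ F, (1 - p) * y e = ∏ _e ∈ E \ F, (1 - p) := by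
      apply prod_congr rfl
      intro e he
      have : e ∉ A := fun h => (mem_sdiff.1 he).2 (hF h)
      simp only [hy, this, if_false, mul_one]
    simp only [ht]
    rw [e1, e2]
    unfold wt
    ring
  have hsum : ∑ F ∈ E.powerset, t F = p ^ A.card * (p * Real.exp (-1) + (1 - p)) ^ I.card := by
    simp only [ht]
    rw [← prod_add]
    have e1 : ∀ e ∈ E, p * x e + (1 - p) * y e =
        (if e ∈ A then p else 1) * (if e ∈ I then p * Real.exp (-1) + (1 - p) else 1) := by
      intro e _
      simp only [hx, hy]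
      by_cases h1 : e ∈ A
      · have h2 : e ∉ I := fun h => (disjoint_left.1 hd) h1 h
        simp [h1, h2]
      · by_cases h2 : e ∈ I
        · simp [h1, h2]
        · simp [h1, h2]
    rw [prod_congr rfl e1, prod_mul_distrib, prod_ite_mem, prod_ite_mem, prod_const, prod_const,
      inter_eq_right.2 hA, inter_eq_right.2 hI]
  have hle : pr (fun _ => p) E (fun F => A ⊆ F ∧ ((F ∩ I).card : ℝ) ≤ k) ≤
      ∑ F ∈ E.powerset, Real.exp k * t F := by
    unfold pr
    rw [sum_filter]
    apply sum_le_sum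
    intro F _
    have hn : 0 ≤ Real.exp k * t F := mul_nonneg (Real.exp_pos _).le (ht0 F)
    by_cases h : A ⊆ F ∧ ((F ∩ I).card : ℝ) ≤ k
    · rw [if_pos h, ht1 F h.1]
      have hw : 0 ≤ wt (fun _ => p) E F := wt_nonneg (fun _ => hp0) (fun _ => hp1) E F
      have he : 1 ≤ Real.exp k * Real.exp (-((F ∩ I).card : ℝ)) := by
        rw [← Real.exp_add]
        exact Real.one_le_exp (by linarith [h.2])
      calc wt (fun _ => p) E F = wt (fun _ => p) E F * 1 := (mul_one _).symm
        _ ≤ wt (fun _ => p) E F * (Real.exp k * Real.exp (-((F ∩ I).card : ℝ))) :=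
            mul_le_mul_of_nonneg_left he hw
        _ = _ := by ring
    · rw [if_neg h]
      exact hn
  refine hle.trans ?_
  rw [← mul_sum, hsum]
  have hb0 : 0 ≤ p * Real.exp (-1) + (1 - p) := by
    have := Real.exp_pos (-1)
    nlinarith
  have hinv : Real.exp (-1) ≤ 2 / 5 := by
    rw [Real.exp_neg]
    have h1 := Real.exp_one_gt_d9
    rw [inv_le_comm₀ (Real.exp_pos 1) (by norm_num)]
    linarith
  have hb : p * Real.exp (-1) + (1 - p) ≤ Real.exp (-(3 / 5 * p)) := by
    have h1 := Real.add_one_le_exp (-(3 / 5 * p))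
    nlinarith
  have hb2 : (p * Real.exp (-1) + (1 - p)) ^ I.card ≤ Real.exp (-(3 / 5 * p * I.card)) := by
    calc (p * Real.exp (-1) + (1 - p)) ^ I.card ≤ (Real.exp (-(3 / 5 * p))) ^ I.card :=
          pow_le_pow_left₀ hb0 hb _
      _ = Real.exp (-(3 / 5 * p * I.card)) := by
          rw [← Real.exp_nat_mul]
          congr 1
          ring
  calc Real.exp k * (p ^ A.card * (p * Real.exp (-1) + (1 - p)) ^ I.card)
      ≤ Real.exp k * (p ^ A.card * Real.exp (-(3 / 5 * p * I.card))) := by gcongr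
    _ = p ^ A.card * (Real.exp k * Real.exp (-(3 / 5 * p * I.card))) := by ring
    _ = _ := by
        rw [← Real.exp_add]
        congr 2
        try ring

theorem t_JOINT : JOINT := by
  intro V _ _ p k A I hp0 hp1 hA hI hd
  exact joint_aux (pairs V) A I p k hp0 hp1 hA hI hd

end Run7.h705.RP
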