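import Pool.Agent.Run7.h202.RP.Stm

/-!
# Piece T0 of project RP (helper202)
-/

set_option autoImplicit false

namespace Run7.h705.RP

open Finset Filter Pool.Agent.H234RC Pool.Agent.TH953.RC Pool.Agent.Y395.RS Pool.Agent.Y395.RW
open Pool.Agent.Run7.h202.RP

theorem t_T0 : T0 := by
  intro V _ _ p Q
  classical
  have hmap : ∀ F ∈ (pairs V).powerset.filter (fun F => Q F), F.card ∈ range ((pairs V).card + 1) := by
    intro F hF
    rw [mem_filter, mem_powerset] at hF
    exact mem_range.2 (Nat.lt_succ_of_le (card_le_card hF.1))
  have e0 : P p Q = ∑ F ∈ (pairs V).powerset.filter (fun F => Q F), wt (fun _ => p) (pairs V) F := by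
    unfold P pr
    congr
  rw [e0, ← sum_fiberwise_of_maps_to hmap]
  apply sum_congr rfl
  intro m hm
  have hm' : m ≤ (pairs V).card := Nat.lt_succ_iff.1 (mem_range.1 hm)
  have hC : ((pairs V).card.choose m : ℝ) ≠ 0 := by
    exact_mod_cast (Nat.choose_pos hm').ne'
  have e1 : ∑ F ∈ ((pairs V).powerset.filter (fun F => Q F)).filter (fun F => F.card = m),
      wt (fun _ => p) (pairs V) F =
      ((((pairs V).powersetCard m).filter (fun F => Q F)).card : ℝ) *
        (p ^ m * (1 - p) ^ ((pairs V).card - m)) := by
    have e2 : ((pairs V).powerset.filter (fun F => Q F)).filter (fun F => F.card = m) =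
        ((pairs V).powersetCard m).filter (fun F => Q F) := by
      ext F
      simp only [mem_filter, mem_powerset, mem_powersetCard]
      tauto
    rw [e2, ← nsmul_eq_mul, ← sum_const]
    apply sum_congr rfl
    intro F hF
    rw [mem_filter, mem_powersetCard] at hF
    unfold wt
    rw [prod_const, prod_const, card_sdiff_of_subset hF.1.1, hF.1.2]
  have e3 : frac m Q = ((((pairs V).powersetCard m).filter (fun F => Q F)).card : ℝ) /
      ((pairs V).card.choose m : ℝ) := by
    unfold frac
    congr
  rw [e1, e3]
  field_simp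

end Run7.h705.RP
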